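import Pool.Agent.W424.KI.Stm

/-!
# The strip is far from the zipper; the cluster of a sector avoids the exits (KI-STR, helper358)
-/

set_option autoImplicit false

namespace Pool.Agent.W358.KI
open H974 H906.Cyl
open H12S (Dir hbE segD rimE H4 Crs Nr sqE)
open Pool.Agent.H160R2.ML (nm)
open Pool.Agent.H160R2.MU (Cel csq cpos EP inSq)
open Pool.Agent.W801.OU
open Pool.Agent.W808.KZ (vp fp AdmZ OutF LandZ nrp ZCr mrg)
open Pool.Agent.W424.KI

namespace TSTR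

/-- the coordinates of an edge of a coarse square -/
theorem sq_of {r : ℕ} {z : ℤ × ℤ} {e : Edg} (h : e ∈ sqE r z) :
    r * z.1 ≤ e.1 ∧ e.1 ≤ r * z.1 + r ∧ r * z.2 ≤ e.2.1 ∧ e.2.1 ≤ r * z.2 + r := by
  obtain ⟨x, y, b⟩ := e
  unfold sqE at h
  cases b
  · rw [mem_RE_false] at h
    exact ⟨h.1, h.2.1, h.2.2.1, h.2.2.2.le⟩
  · rw [mem_RE_true] at h
    exact ⟨h.1, h.2.1.le, h.2.2.1, h.2.2.2⟩

theorem sq_mem {r : ℕ} {z : ℤ × ℤ} {e : Edg}
    (h : r * z.1 ≤ e.1 ∧ e.1 < r * z.1 + r ∧ r * z.2 ≤ e.2.1 ∧ e.2.1 < r * z.2 + r) :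
    e ∈ sqE r z := by
  obtain ⟨x, y, b⟩ := e
  unfold sqE
  cases b
  · rw [mem_RE_false]
    exact ⟨h.1, h.2.1.le, h.2.2.1, h.2.2.2⟩
  · rw [mem_RE_true]
    exact ⟨h.1, h.2.1, h.2.2.1, h.2.2.2.le⟩

theorem sq_div {r : ℕ} (hr : 1 ≤ r) (e : Edg) : e ∈ sqE r (e.1 / r, e.2.1 / r) := by
  have hr' : (0 : ℤ) < r := by exact_mod_cast hr
  exact sq_mem ⟨Int.mul_ediv_self_le hr'.ne', Int.lt_mul_ediv_self_add hr',
    Int.mul_ediv_self_le hr'.ne', Int.lt_mul_ediv_self_add hr'⟩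

/-- squares of the inner box -/
theorem box_mem {N L r : ℕ} (hr : 1 ≤ r) {e : Edg}
    (h1 : -(N * r : ℤ) ≤ e.1) (h2 : e.1 < N * r)
    (h3 : -(N * r : ℤ) ≤ e.2.1) (h4 : e.2.1 < N * r) :
    e ∈ EB N L r := by
  have hr' : (0 : ℤ) < r := by exact_mod_cast hr
  refine ⟨_, Or.inl ⟨?_, ?_, ?_, ?_⟩, sq_div hr e⟩
  · rw [Int.le_ediv_iff_mul_le hr']
    linarith
  · rw [Int.ediv_lt_iff_lt_mul hr']
    linarith
  · rw [Int.le_ediv_iff_mul_le hr']
    linarith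
  · rw [Int.ediv_lt_iff_lt_mul hr']
    linarith

/-- squares of the outer region (above) -/
theorem out_mem {N L r : ℕ} (hr : 1 ≤ r) {e : Edg} (h4 : (L * r : ℤ) ≤ e.2.1) :
    e ∈ EB N L r := by
  have hr' : (0 : ℤ) < r := by exact_mod_cast hr
  refine ⟨_, Or.inr ?_, sq_div hr e⟩
  rintro ⟨-, -, -, h⟩
  rw [Int.ediv_lt_iff_lt_mul hr'] at h
  linarith

theorem dg_coord {Z : Set ℤ} {c : ℤ} {e : Edg} {u v : ℤ × ℤ} (h : Dg Z c e u v) :
    (|u.1 - (e.1 + e.2.1)| ≤ 1 ∧ (u.2 = dco e ∨ u.2 = dco e + 1)) ∧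
      (|v.1 - (e.1 + e.2.1)| ≤ 1 ∧ (v.2 = dco e ∨ v.2 = dco e + 1)) := by
  have key : ∀ d j t : ℤ, (nrm Z d j t).2 = t ∧ ((nrm Z d j t).1 = j ∨ (nrm Z d j t).1 = j - 1) := by
    intro d j t
    unfold nrm
    split_ifs
    · exact ⟨rfl, Or.inr rfl⟩
    · exact ⟨rfl, Or.inl rfl⟩
  cases h with
  | rise h =>
    obtain ⟨a1, a2⟩ := key (dco e) (e.1 + e.2.1) (dco e)
    obtain ⟨b1, b2⟩ := key (dco e) (e.1 + e.2.1 + 1) (dco e + 1)
    refine ⟨⟨?_, Or.inl a1⟩, ?_, Or.inr b1⟩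
    · rw [abs_le]; rcases a2 with a2 | a2 <;> rw [a2] <;> constructor <;> linarith
    · rw [abs_le]; rcases b2 with b2 | b2 <;> rw [b2] <;> constructor <;> linarith
  | fall h =>
    obtain ⟨a1, a2⟩ := key (dco e) (e.1 + e.2.1) (dco e + 1)
    obtain ⟨b1, b2⟩ := key (dco e) (e.1 + e.2.1 + 1) (dco e)
    refine ⟨⟨?_, Or.inr a1⟩, ?_, Or.inl b1⟩
    · rw [abs_le]; rcases a2 with a2 | a2 <;> rw [a2] <;> constructor <;> linarith
    · rw [abs_le]; rcases b2 with b2 | b2 <;> rw [b2] <;> constructor <;> linarith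

theorem lz_coord {Z : Set ℤ} {B G : Set Edg} {u v : ℤ × ℤ} (h : LZ Z B G u v) :
    ∃ e ∈ B, e ∉ zp Z ∧ ((e ∈ G ∧ Dg Z 0 e u v) ∨ (e ∉ G ∧ Dg Z 1 e u v)) ∧
      (|u.1 - (e.1 + e.2.1)| ≤ 1 ∧ (u.2 = dco e ∨ u.2 = dco e + 1)) ∧
      (|v.1 - (e.1 + e.2.1)| ≤ 1 ∧ (v.2 = dco e ∨ v.2 = dco e + 1)) := by
  obtain ⟨e, he, hz, h⟩ := h
  refine ⟨e, he, hz, h, ?_⟩
  rcases h with h | h
  · exact dg_coord h.2
  · exact dg_coord h.2

open Classical in
theorem mem_FB {N L r : ℕ} {Ci Co : Cel} {R : ℕ} {F : Finset Edg} (hF : F ⊆ boxE R) (e : Edg) :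
    e ∈ (↑(FB N L r Ci Co R F) : Set Edg) ↔ (e ∈ EB N L r ∨ e ∈ ET N L r Ci Co) ∧ e ∈ F := by
  unfold FB
  rw [Finset.mem_coe, Finset.mem_filter]
  exact ⟨fun h => h.2, fun h => ⟨hF h.2, h⟩⟩

/-- the cluster of a sector near an exit -/
theorem exit_cr {c N L r ρ : ℕ} {Ci Co : Cel} {R : ℕ} (hr : 64 * ρ ≤ r) (hρ : 16 ≤ ρ)
    {F : Finset Edg} (hF : F ⊆ boxE R)
    (hX : ∀ x : ℤ × ℤ, XE N L r Ci Co x →
      ¬ RZ {0} (bxz R) (↑(FB N L r Ci Co R F) : Set Edg) (scz 0 0 c) x)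
    (T : ℤ) (hT : (r : ℤ) ≤ |T|) (x : ℤ × ℤ)
    (hx : RZ {0} (bxz R) (↑(FB N L r Ci Co R F) : Set Edg) (scz 0 0 c) x)
    (h1 : |x.1| ≤ 16 * ρ) (h2 : |x.2 - T| ≤ 16 * ρ) :
    ZCr {0} {e | |e.1 + e.2.1| ≤ r ∧ |dco e - T| ≤ r} (↑F : Set Edg) T (16 * ρ) (r / 2) := by
  by_contra hcon
  have hr' : (64 * ρ : ℤ) ≤ r := by exact_mod_cast hr
  have hρ' : (16 : ℤ) ≤ ρ := by exact_mod_cast hρ
  set B : Set Edg := {e | |e.1 + e.2.1| ≤ r ∧ |dco e - T| ≤ r} with hB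
  have hin : ∀ y : ℤ × ℤ, RZ {0} B (↑F : Set Edg) x y → |y.1| < r / 2 ∧ |y.2 - T| < r / 2 := by
    intro y hy
    constructor
    · by_contra h
      exact hcon ⟨x, y, h1, h2, Or.inl (not_lt.1 h), hy⟩
    · by_contra h
      exact hcon ⟨x, y, h1, h2, Or.inr (not_lt.1 h), hy⟩
  -- the links of the cluster
  have hlk : ∀ u v : ℤ × ℤ, LZ {0} (bxz R) (↑(FB N L r Ci Co R F) : Set Edg) u v →
      RZ {0} (bxz R) (↑(FB N L r Ci Co R F) : Set Edg) (scz 0 0 c) u →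
      ((|u.1| < r / 2 ∧ |u.2 - T| < r / 2) ∨ (|v.1| < r / 2 ∧ |v.2 - T| < r / 2)) →
      LZ {0} B (↑F : Set Edg) u v := by
    intro u v huv hu hI
    obtain ⟨e, heR, hz, hl, ⟨hu1, hu2⟩, hv1, hv2⟩ := lz_coord huv
    have hEE : e ∈ EB N L r ∨ e ∈ ET N L r Ci Co := by
      by_contra hc
      rw [not_or] at hc
      have hnF : e ∉ (↑(FB N L r Ci Co R F) : Set Edg) := by
        rw [mem_FB hF]
        rintro ⟨h | h, -⟩
        · exact hc.1 h
        · exact hc.2 h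
      rcases hl with h | h
      · exact hnF h.1
      · exact hX u ⟨e, hc, hz, v, Or.inl h.2⟩ hu
    refine ⟨e, ?_, hz, ?_⟩
    · rw [abs_le] at hu1 hv1
      show |e.1 + e.2.1| ≤ r ∧ |dco e - T| ≤ r
      rcases hI with ⟨i1, i2⟩ | ⟨i1, i2⟩
      · rw [abs_lt] at i1 i2
        constructor
        · rw [abs_le]; constructor <;> omega
        · rw [abs_le]; constructor <;> omega
      · rw [abs_lt] at i1 i2
        constructor
        · rw [abs_le]; constructor <;> omega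
        · rw [abs_le]; constructor <;> omega
    · rcases hl with h | h
      · exact Or.inl ⟨((mem_FB hF e).1 h.1).2, h.2⟩
      · exact Or.inr ⟨fun hc => h.1 ((mem_FB hF e).2 ⟨hEE, hc⟩), h.2⟩
  -- closedness
  have hcl : ∀ u v : ℤ × ℤ, RZ {0} (bxz R) (↑(FB N L r Ci Co R F) : Set Edg) u v →
      RZ {0} (bxz R) (↑(FB N L r Ci Co R F) : Set Edg) (scz 0 0 c) u →
      (RZ {0} B (↑F : Set Edg) x u ↔ RZ {0} B (↑F : Set Edg) x v) := by
    intro u v huv
    induction huv with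
    | rel u v h =>
      intro hu
      constructor
      · intro hxu
        exact Relation.EqvGen.trans _ _ _ hxu
          (Relation.EqvGen.rel _ _ (hlk u v h hu (Or.inl (hin u hxu))))
      · intro hxv
        exact Relation.EqvGen.trans _ _ _ hxv (Relation.EqvGen.symm _ _
          (Relation.EqvGen.rel _ _ (hlk u v h hu (Or.inr (hin v hxv)))))
    | refl u => intro _; exact Iff.rfl
    | symm u v h ih =>
      intro hv
      exact (ih (Relation.EqvGen.trans _ _ _ hv (Relation.EqvGen.symm _ _ h))).symm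
    | trans u v w h h' ih ih' =>
      intro hu
      exact (ih hu).trans (ih' (Relation.EqvGen.trans _ _ _ hu h))
  have hfin := (hcl x (scz 0 0 c) (Relation.EqvGen.symm _ _ hx) hx).1 (Relation.EqvGen.refl _)
  have h3 := (hin _ hfin).2
  have h4 : (scz 0 0 c).2 = 0 := rfl
  rw [h4, zero_sub, abs_neg] at h3
  have : (r : ℤ) / 2 ≤ r := by omega
  linarith

end TSTR

open TSTR

theorem t_STR : S_z1 → S_z3 → S_STR := by
  intro _ hz3 N L r ρ Ci Co R hG hρ hr e he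
  by_contra hcon
  rw [not_or, not_le, not_le] at hcon
  obtain ⟨ha, hd⟩ := hcon
  obtain ⟨hbt, ⟨e', he', hx', hy'⟩, hex⟩ := he
  obtain ⟨-, -, hz⟩ := hz3 N L Ci Co hG.hN hG.hL hG.hi hG.ho _ rfl
  have hN' : (16 : ℤ) ≤ N := by exact_mod_cast hG.hN
  have hL' : (3 * N : ℤ) ≤ L := by exact_mod_cast hG.hL
  have hρ' : (16 : ℤ) ≤ ρ := by exact_mod_cast hρ
  have hr' : (64 * ρ : ℤ) ≤ r := by exact_mod_cast hr
  have hr1 : 1 ≤ r := by omega
  have hr0 : (0 : ℤ) < r := by linarith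
  have hR : (16 * r : ℤ) ≤ N * r := by nlinarith
  have hR' : (3 * (N * r) : ℤ) ≤ L * r := by nlinarith
  have hxy : e.1 - e.2.1 ≤ ρ := by
    obtain ⟨x, y, b⟩ := e
    cases b <;> simp only [dco, if_true, Bool.false_eq_true, if_false] at hd ⊢ <;> omega
  rw [abs_lt] at ha
  obtain ⟨ha1, ha2⟩ := ha
  rw [abs_le] at hx' hy'
  rcases le_or_gt e.2.1 (N * r - 3 * ρ - 2) with hy | hy
  · apply he'.1
    apply box_mem hr1 <;> linarith [hx'.1, hx'.2, hy'.1, hy'.2]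
  rcases le_or_gt e.2.1 (N * r + 4 * ρ) with hy1 | hy1
  · apply hex
    left
    constructor <;> rw [abs_le] <;> constructor <;> linarith
  rcases lt_or_ge e.2.1 (L * r - 4 * ρ) with hy2 | hy2
  · rcases hbt with h | h
    · obtain ⟨z, hzB, hze⟩ := h
      obtain ⟨q1, q2, q3, q4⟩ := sq_of hze
      rcases hzB with ⟨b1, b2, b3, b4⟩ | hzB
      · have := mul_le_mul_of_nonneg_left (show z.2 + 1 ≤ N by linarith) hr0.le
        linarith
      · apply hzB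
        refine ⟨?_, ?_, ?_, ?_⟩
        · by_contra hc
          have := mul_le_mul_of_nonneg_left (show z.1 + 1 ≤ -(L : ℤ) by linarith [not_le.1 hc]) hr0.le
          linarith
        · by_contra hc
          have := mul_le_mul_of_nonneg_left (not_lt.1 hc) hr0.le
          linarith
        · by_contra hc
          have := mul_le_mul_of_nonneg_left (show z.2 + 1 ≤ -(L : ℤ) by linarith [not_le.1 hc]) hr0.le
          linarith
        · by_contra hc
          have := mul_le_mul_of_nonneg_left (not_lt.1 hc) hr0.le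
          linarith
    · obtain ⟨z, hzT, hze⟩ := h
      obtain ⟨q1, q2, q3, q4⟩ := sq_of hze
      have c1 : z.1 + z.2 < 1 := by
        by_contra hc
        have := mul_le_mul_of_nonneg_left (not_lt.1 hc) hr0.le
        linarith
      have c2 : -3 < z.1 + z.2 := by
        by_contra hc
        have := mul_le_mul_of_nonneg_left (not_lt.1 hc) hr0.le
        linarith
      have c3 : z.1 - z.2 < 2 := by
        by_contra hc
        have := mul_le_mul_of_nonneg_left (not_lt.1 hc) hr0.le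
        linarith
      rcases (hz z hzT).2.2 with h | h | h <;> linarith
  rcases le_or_gt e.2.1 (L * r + 3 * ρ + 2) with hy3 | hy3
  · apply hex
    right
    constructor <;> rw [abs_le] <;> constructor <;> linarith
  · apply he'.1
    apply out_mem hr1
    linarith [hy'.1, hy'.2]

theorem t_FRB : S_z3 → S_FRB := by
  intro _ c N L r ρ Ci Co R _ hG hρ hr F hF hBZ hX x hx
  by_contra hcon
  rw [not_or, not_lt] at hcon
  obtain ⟨h1, h2⟩ := hcon
  have hN' : (16 : ℤ) ≤ N := by exact_mod_cast hG.hN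
  have hL' : (3 * N : ℤ) ≤ L := by exact_mod_cast hG.hL
  have hr0 : (0 : ℤ) ≤ r := Int.natCast_nonneg r
  have hR : (16 * r : ℤ) ≤ N * r := mul_le_mul_of_nonneg_right hN' hr0
  have hR' : (3 * (N * r) : ℤ) ≤ L * r := by nlinarith
  have e1 : ∀ K : ℤ, {e : Edg | |e.1 + e.2.1| ≤ r ∧ |dco e - -(2 * K * r)| ≤ r} =
      {e : Edg | |e.1 + e.2.1| ≤ r ∧ |dco e + 2 * K * r| ≤ r} := by
    intro K
    ext e
    simp only [Set.mem_ofPred_eq, sub_neg_eq_add]
  apply hBZ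
  rcases not_and_or.1 h2 with h | h
  · left
    rw [not_lt] at h
    rw [← e1]
    refine exit_cr hr hρ hF hX _ ?_ x hx h1 (by rwa [sub_neg_eq_add])
    rw [abs_neg, abs_of_nonneg (by positivity)]
    linarith
  · right
    rw [not_lt] at h
    rw [← e1]
    refine exit_cr hr hρ hF hX _ ?_ x hx h1 (by rwa [sub_neg_eq_add])
    rw [abs_neg, abs_of_nonneg (by positivity)]
    linarith

end Pool.Agent.W358.KI
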